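import Pool.Agent.Y45.MON.Defs
import Pool.Agent.TH54.BU.Close

set_option autoImplicit false

/-!
# MON V2: closed lifts of polygons, minimality, reduced elements (variable exponents)
-/

namespace Pool.Agent.Y430.MON

open Pool.Agent.TH54.BU Pool.Agent.Y45.MON

variable {G : Type} [Group G] {H : GH G} {c θ T : ℕ} (L : LS H c θ T)

theorem close {n : L.ι → ℕ} {M : Subgroup G} (F : Fv L n M) {A k : ℕ}
    (hn : ∀ i, k * A + 12 * L.thr ≤ n i) (hn2 : ∀ i, 24 * L.thr + T * (2 * c + 1) ≤ n i)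
    (Rel : ℕ → G → G → Prop)
    (hM : ∀ j < k, ∀ m ∈ M, ∀ a b, Rel j a b → Rel j (m * a) (m * b))
    (hrot : ∀ j < k, ∀ a b, Rel j a b → ∀ (i : L.ι) (u : G), (A : ℤ) ≤ |L.s i u a b| →
      ∀ l : ℤ, Rel j a (L.rt i u (n i * l) * b))
    (P : ℕ → G) (hP : ∀ j < k, Rel j (P j) (P (j + 1))) (hend : ∃ m ∈ M, P k = m * P 0) :
    ∃ P' : ℕ → G, (∀ j < k, Rel j (P' j) (P' (j + 1))) ∧ P' k = P' 0 ∧
      ∀ j ≤ k, ∃ m ∈ M, P' j = m * P j := by
  obtain ⟨P', ⟨hP1, hP2⟩, hmin⟩ := cl_min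
    (fun P' : ℕ → G => (∀ j < k, Rel j (P' j) (P' (j + 1))) ∧ ∀ j ≤ k, ∃ m ∈ M, P' j = m * P j)
    (fun P' => H.d (P' 0) (P' k)) ⟨P, hP, fun j _ => ⟨1, M.one_mem, (one_mul _).symm⟩⟩
  refine ⟨P', hP1, ?_, hP2⟩
  by_contra hne
  -- the end points differ by an element of `M`
  obtain ⟨m0, hm0, e0⟩ := hend
  obtain ⟨m1, hm1, e1⟩ := hP2 k le_rfl
  obtain ⟨m2, hm2, e2⟩ := hP2 0 (Nat.zero_le _)
  have em : P' k = (m1 * m0 * m2⁻¹) * P' 0 := by
    rw [e1, e2, e0]
    group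
  have hm : m1 * m0 * m2⁻¹ ∈ M := M.mul_mem (M.mul_mem hm1 hm0) (M.inv_mem hm2)
  have hm1' : m1 * m0 * m2⁻¹ ≠ 1 := by
    intro h
    rw [h, one_mul] at em
    exact hne em
  obtain ⟨i, u, hgr⟩ := F.gr _ hm hm1' (P' 0)
  rw [← em] at hgr
  have hk0 : 1 ≤ k := by
    rcases Nat.eq_zero_or_pos k with h | h
    · rw [h] at hne
      exact absurd rfl hne
    · exact h
  -- a large side
  obtain ⟨j, hj, hAj⟩ : ∃ j < k, (A : ℤ) ≤ |L.s i u (P' j) (P' (j + 1))| := by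
    by_contra hcon
    push Not at hcon
    have key : ∀ t ≤ k, |L.s i u (P' 0) (P' t)| + t ≤ t * (A : ℤ) := by
      intro t
      induction t with
      | zero => intro _; rw [L.wf_s_self]; simp
      | succ t ih =>
        intro ht
        have i1 := ih (by omega)
        have i2 := hcon t (by omega)
        have i3 := abs_add_le (L.s i u (P' 0) (P' t)) (L.s i u (P' t) (P' (t + 1)))
        rw [L.wf_s_add] at i3
        push_cast
        rw [add_mul, one_mul]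
        linarith
    have h1 := key k le_rfl
    have h2 : (k : ℤ) * A + 12 * L.thr ≤ n i := by exact_mod_cast hn i
    have h3 : (1 : ℤ) ≤ k := by exact_mod_cast hk0
    linarith
  -- shorten
  have hn2i := hn2 i
  obtain ⟨l, hl⟩ := L.shorten 0 (n := n i) (i := i) (u := u) (p := P' 0) (q := P' k)
    (by rw [add_zero]; omega) (by
      have h2 : (24 : ℤ) * L.thr + T * (2 * c + 1) ≤ n i := by exact_mod_cast hn2i
      push_cast
      rw [add_zero]
      linarith)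
  rw [add_zero] at hl
  have hrM : L.rt i u (n i * l) ∈ M := F.rot i u l
  have hlt := hmin (fun e => if e ≤ j then P' e else L.rt i u (n i * l) * P' e) ⟨?_, ?_⟩
  · simp only [Nat.zero_le, if_true, if_neg (show ¬ k ≤ j by omega)] at hlt
    omega
  · intro e he
    by_cases h1 : e + 1 ≤ j
    · rw [if_pos h1, if_pos (by omega)]
      exact hP1 e he
    · by_cases h2 : e ≤ j
      · have : e = j := by omega
        subst this
        rw [if_pos le_rfl, if_neg h1]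
        exact hrot e hj _ _ (hP1 e hj) i u hAj l
      · rw [if_neg h1, if_neg h2]
        exact hM e he _ hrM _ _ (hP1 e he)
  · intro e he
    obtain ⟨m, hm, e3⟩ := hP2 e he
    split_ifs
    · exact ⟨m, hm, e3⟩
    · exact ⟨_, M.mul_mem hrM hm, by rw [e3, mul_assoc]⟩

theorem cone_min {n : L.ι → ℕ} {M : Subgroup G} (F : Fv L n M) {E : GH G} {Θ : ℕ} (C : L.Cone E Θ)
    (hn : ∀ i, T * (2 * c + 1) + 24 * L.thr ≤ n i) {p q : G}
    (h : ∀ (i : L.ι) (u : G), |L.s i u p q| + T * Θ + 12 * L.thr < n i) {m : G} (hm : m ∈ M) :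
    E.d p q ≤ E.d p (m * q) := by
  by_contra hcon
  push Not at hcon
  obtain ⟨m', ⟨hm1, hm2⟩, hmin⟩ := cl_min (fun m' : G => m' ∈ M ∧ E.d p (m' * q) < E.d p q)
    (fun m' => H.d q (m' * q)) ⟨m, hm, hcon⟩
  have hne : m' ≠ 1 := by
    rintro rfl
    rw [one_mul] at hm2
    exact lt_irrefl _ hm2
  obtain ⟨i, u, hgr⟩ := F.gr m' hm1 hne q
  have h1 := h i u
  have hD : Θ ≤ L.D i u p (m' * q) := by
    refine L.cl_D_ge i u p (m' * q) Θ ?_
    have i1 := L.wf_s_add i u p q (m' * q)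
    have i2 := abs_sub_abs_le_abs_sub (L.s i u p (m' * q)) (L.s i u q (m' * q))
    have i3 := abs_sub_abs_le_abs_sub (L.s i u q (m' * q)) (L.s i u p (m' * q))
    have i4 : L.s i u q (m' * q) - L.s i u p (m' * q) = - L.s i u p q := by linarith
    rw [i4, abs_neg] at i3
    have i5 : (T * Θ : ℤ) ≤ |L.s i u p (m' * q)| := by linarith
    rw [Int.abs_eq_natAbs] at i5
    exact_mod_cast i5
  have hni := hn i
  obtain ⟨l, hl⟩ := L.shorten 0 (n := n i) (i := i) (u := u) (p := q) (q := m' * q)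
    (by rw [add_zero]; omega) (by
      have h2 : (T : ℤ) * (2 * c + 1) + 24 * L.thr ≤ n i := by exact_mod_cast hni
      push_cast
      rw [add_zero]
      linarith)
  rw [add_zero, ← mul_assoc] at hl
  have h2 := L.rot_cone C (n := n i) hD (n i * l)
  rw [← mul_assoc] at h2
  have h3 := hmin (L.rt i u (n i * l) * m') ⟨M.mul_mem (F.rot i u l) hm1, by omega⟩
  omega

theorem reduced {n : L.ι → ℕ} {M : Subgroup G} (F : Fv L n M) {E : GH G} {Θ : ℕ} (C : L.Cone E Θ)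
    (hn : ∀ i, T * (2 * c + 1) + 2 * T * Θ ≤ n i) (g : G) :
    ∃ m ∈ M, (∀ m' ∈ M, E.len (m * g) ≤ E.len (m' * g)) ∧
      ∀ (i : L.ι) (u : G), 2 * |L.s i u 1 (m * g)| < n i + T * (2 * c + 1) := by
  obtain ⟨m0, hm0, hmin0⟩ := cl_min (fun m : G => m ∈ M) (fun m => E.len (m * g)) ⟨1, M.one_mem⟩
  obtain ⟨m, ⟨hm, hm'⟩, hmin⟩ := cl_min
    (fun m : G => m ∈ M ∧ ∀ m' ∈ M, E.len (m * g) ≤ E.len (m' * g)) (fun m => H.len (m * g))
    ⟨m0, hm0, hmin0⟩
  refine ⟨m, hm, hm', fun i u => ?_⟩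
  by_contra hcon
  push Not at hcon
  have hni := hn i
  have hn' : (T : ℤ) * (2 * c + 1) + 2 * T * Θ ≤ n i := by exact_mod_cast hni
  have hT0 : (0 : ℤ) ≤ T * (2 * c + 1) := by positivity
  have hD : Θ ≤ L.D i u 1 (m * g) := by
    refine L.cl_D_ge i u 1 (m * g) Θ ?_
    have i5 : (T * Θ : ℤ) ≤ |L.s i u 1 (m * g)| := by linarith
    rw [Int.abs_eq_natAbs] at i5
    exact_mod_cast i5
  obtain ⟨l, hl⟩ := L.shorten 0 (n := n i) (i := i) (u := u) (p := 1) (q := m * g)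
    (by
      rw [add_zero]
      have : T * (2 * c + 1) ≤ n i := by
        have h0 : 0 ≤ 2 * T * Θ := Nat.zero_le _
        omega
      exact this) (by
      push_cast
      rw [add_zero]
      exact hcon)
  rw [add_zero, ← mul_assoc, H.d_one, H.d_one] at hl
  have h2 := L.rot_cone C (n := n i) hD (n i * l)
  rw [← mul_assoc, E.d_one, E.d_one] at h2
  have h3 := hmin (L.rt i u (n i * l) * m) ⟨M.mul_mem (F.rot i u l) hm, fun m' hm'' =>
    h2.trans (hm' m' hm'')⟩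
  omega


end Pool.Agent.Y430.MON
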