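import Pool.Agent.Y45.MON.StmV
import Pool.Agent.Y430.MON.CloseV

set_option autoImplicit false

namespace Pool.Agent.Y430.MON

open Pool.Agent.TH54.BU Pool.Agent.Y45.MON

theorem tClose : CloseStmt := by
  intro G _ H c θ T L n M F A k hn hn2 Rel hM hrot P hP hend
  exact close L F hn hn2 Rel hM hrot P hP hend

theorem tConeMin : ConeMinStmt := by
  intro G _ H c θ T L n M F E Θ C hn p q h m hm
  exact cone_min L F C hn h hm

theorem tReduced : ReducedStmt := by
  intro G _ H c θ T L n M F E Θ C hn g
  exact reduced L F C hn g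

end Pool.Agent.Y430.MON
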